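import Pool.Agent.Q280.ML.OMY
import Pool.Agent.Q280.SD.B

/-!
# The period conjecture for 1-motives: the smallest family of motives over which it holds exactly

`Λ c`, `c ∈ ι`, are pairs of periods `ω₁, ω₂` (independent over `ℝ`), with the lattices
`Ω_c = (Λ c).lattice = ℤ ω₁ + ℤ ω₂` and the elliptic curves `E_c = ℂ / Ω_c`. The index set `ι` is arbitrary; the curves are
supposed to be pairwise non-isogenous, for instance representatives of all isogeny classes of elliptic curves over `ℂ`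
(this is not used in the proof). `℘[L]`, `L.g₂`, `L.g₃` are Mathlib's Weierstrass function and invariants of `L = Λ c`. The
definitions of `ζ`, `k L` (the field `ℚ ⊗ End(ℂ / Ω)`), `T₀ = 2πi ℚ`, `P₀ L = Ω ⊗ ℚ`, `trd` (transcendence degree of the
field generated by a set) and `dimMod` (dimension of a span modulo a subspace) are in `Pool.Agent.Y776.EtDefs`.

Every 1-motive `M = [u : ℤⁿ → 𝔾ₘ^s × ∏ E_c^(g_c)]` over a field of complex numbers is given by the logarithms of the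
points `u(e_l)`: complex numbers `t_i` (for the coordinates in `𝔾ₘ`) and, for every `c` in a finite set `S`, complex
numbers `p_{c,i}` (for the coordinates in `E_c`). The periods of `M` (together with the invariants and the coordinates
`e^t`, `℘(p)` of the points, which belong to the field of definition up to algebraic extensions) are the numbers
`periods S t p`, and `galDim S t p` is the dimension of the motivic Galois group of `M` (a known formula). `Conj Λ 0` is
question Q1 for all these 1-motives, and `Conj Λ C` is Q1 with the error `C`.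

A family `F = (T, (P_c))` consists of a `ℚ`-space `T ∋ 2πi` and of `k_c`-spaces `P_c` which are zero or contain
`Ω_c ⊗ ℚ`; here `P_c = 0` means that the curve `E_c` does not occur. The finite families correspond to the categories
generated by the 1-motives above, and the arbitrary families to the unions of such categories.

The theorem: there is a smallest family `B` such that the conjecture holds exactly over `B`. Q1 holds for all these
1-motives if and only if `B` is the family `(2πi ℚ, 0)` of the Tate motives, and Q1 holds up to a bounded error if and only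
if `B` is finite.

## The proof (in `Pool.Agent.Q280.ML`)

The dimension of the motivic Galois group minus the transcendence degree of the periods is a supermodular function on the
modular lattice of the families. The families all of whose proper subfamilies have a smaller value form a directed set, and
`B` is its union.
-/

set_option autoImplicit false

open Module
open scoped PeriodPair

namespace Pool.Agent.Results.MP_12eca1_ag.CanonicalFamily

open Pool.Agent.Y776.Et (ζ k trd dimMod T₀ P₀)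

variable {ι : Type}

/-- the invariants `g₂, g₃`, the periods and the quasi-periods `ηᵢ = 2 ζ(ωᵢ / 2)` of a curve -/
noncomputable def per (L : PeriodPair) : Set ℂ :=
  {L.g₂, L.g₃, L.ω₁, L.ω₂, 2 * ζ L (L.ω₁ / 2), 2 * ζ L (L.ω₂ / 2)}

/-- `t` and `e^t` -/
noncomputable def mval (t : ℂ) : Set ℂ := {t, Complex.exp t}

/-- `p`, `℘(p)` and `ζ(p)` -/
noncomputable def eval (L : PeriodPair) (p : ℂ) : Set ℂ := {p, ℘[L] p, ζ L p}

/-- the periods of the 1-motive given by `t` and by `p c`, `c ∈ S` -/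
noncomputable def periods (Λ : ι → PeriodPair) (S : Finset ι) {s : ℕ} {n : ι → ℕ} (t : Fin s → ℂ)
    (p : ∀ c, Fin (n c) → ℂ) : Set ℂ :=
  {2 * Real.pi * Complex.I} ∪
    {x | (∃ i, x ∈ mval (t i)) ∨ ∃ c ∈ S, x ∈ per (Λ c) ∨ ∃ i, x ∈ eval (Λ c) (p c i)}

/-- `1 + dim ⟨t⟩ + ∑ (4 / [k_c : ℚ] - 1 + 2 dim ⟨p_c⟩)`, the dimension of the motivic Galois group; `4 / [k_c : ℚ] - 1` is
`3` for a curve without complex multiplication and `1` otherwise, `⟨t⟩` is the `ℚ`-span modulo `2πi ℚ`, and `⟨p_c⟩` the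
`k_c`-span modulo `Ω_c ⊗ ℚ` -/
noncomputable def galDim (Λ : ι → PeriodPair) (S : Finset ι) {s : ℕ} {n : ι → ℕ} (t : Fin s → ℂ)
    (p : ∀ c, Fin (n c) → ℂ) : ℕ :=
  1 + dimMod T₀ t + ∑ c ∈ S, (4 / finrank ℚ (k (Λ c)) - 1 + 2 * dimMod (P₀ (Λ c)) (p c))

/-- Question Q1 with the error `C` for the 1-motives `[ℤⁿ → 𝔾ₘ^s × ∏ E_c^(g_c)]`. For `C = 0` this is Q1 for them. -/
def Conj (Λ : ι → PeriodPair) (C : ℕ) : Prop :=
  ∀ (S : Finset ι) (s : ℕ) (n : ι → ℕ) (t : Fin s → ℂ) (p : ∀ c, Fin (n c) → ℂ),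
    (∀ c ∈ S, ∀ i, p c i ∉ (Λ c).lattice) →
    ((galDim Λ S t p : ℕ) : Cardinal) ≤ trd ℚ (periods Λ S t p) + C

section

variable {K : Type} [Field K] [Module K ℂ]

/-- `P` is zero or contains `Q` -/
def ZeroOrGe (Q P : Submodule K ℂ) : Prop := P = ⊥ ∨ Q ≤ P

/-- `P` has finite dimension -/
def Fd (P : Submodule K ℂ) : Prop := FiniteDimensional K P

/-- the dimension of `P` -/
noncomputable def dim (P : Submodule K ℂ) : ℕ := finrank K P

/-- `z₁, …, zₙ` are independent modulo `P` -/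
def IndepMod (P : Submodule K ℂ) {n : ℕ} (z : Fin n → ℂ) : Prop := LinearIndependent K (fun i => P.mkQ (z i))

end

/-- A family: a `ℚ`-space `T ∋ 2πi` and for every `c` a `k_c`-space `P_c` which is zero or contains `Ω_c ⊗ ℚ`. -/
@[ext] structure Fam (Λ : ι → PeriodPair) : Type where
  T : Submodule ℚ ℂ
  P : ∀ c, Submodule (k (Λ c)) ℂ
  T_ge : T₀ ≤ T
  P_ge : ∀ c, ZeroOrGe (P₀ (Λ c)) (P c)

variable {Λ : ι → PeriodPair}

/-- inclusion of families -/
def Fam.Le (F G : Fam Λ) : Prop := F.T ≤ G.T ∧ ∀ c, F.P c ≤ G.P c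

/-- the intersection of two families -/
noncomputable def Fam.inter (F G : Fam Λ) : Fam Λ :=
  ⟨F.T ⊓ G.T, fun c => F.P c ⊓ G.P c, le_inf F.T_ge G.T_ge, fun c => by
    rcases F.P_ge c with h | h
    · exact Or.inl (by rw [h, bot_inf_eq])
    · rcases G.P_ge c with h' | h'
      · exact Or.inl (by rw [h', inf_bot_eq])
      · exact Or.inr (le_inf h h')⟩

/-- the family `(2πi ℚ, 0)` -/
noncomputable def Fam.base (Λ : ι → PeriodPair) : Fam Λ := ⟨T₀, fun _ => ⊥, le_rfl, fun _ => Or.inl rfl⟩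

/-- finite families -/
def Fam.IsFinite (F : Fam Λ) : Prop := Fd F.T ∧ (∀ c, Fd (F.P c)) ∧ {c | F.P c ≠ ⊥}.Finite

/-- The numbers `t`, `exp(t)` with `t ∈ T`. -/
noncomputable def numbers₁ (T : Submodule ℚ ℂ) : Set ℂ := {x | ∃ t ∈ T, x ∈ mval t}

/-- The numbers `g₂`, `g₃`, and `p`, `℘(p)`, `ζ(p)` with `p ∈ P`; `℘` and `ζ` are only taken outside the lattice. -/
noncomputable def numbers₂ (L : PeriodPair) (P : Submodule (k L) ℂ) : Set ℂ :=
  {x | x = L.g₂ ∨ x = L.g₃ ∨ x ∈ P ∨ ∃ p ∈ P, p ∉ L.lattice ∧ x ∈ eval L p}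

/-- The numbers of a family: those of `T`, and those of `P_c` for all `c` with `P_c ≠ 0`. -/
noncomputable def Fam.numbers (F : Fam Λ) : Set ℂ :=
  numbers₁ F.T ∪ {x | ∃ c, F.P c ≠ ⊥ ∧ x ∈ numbers₂ (Λ c) (F.P c)}

/-- `dim T + ∑ (2 dim P_c - 1)`, the sum over the `c` with `P_c ≠ 0`: the dimension of the motivic Galois group of the
category generated by the family -/
noncomputable def Fam.weight (F : Fam Λ) : ℕ := dim F.T + ∑ᶠ c, (2 * dim (F.P c) - 1)

/-- The defect: the dimension of the motivic Galois group minus the transcendence degree. -/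
noncomputable def Fam.defect (F : Fam Λ) : ℤ := (F.weight : ℤ) - ((trd ℚ F.numbers).toNat : ℤ)

/-- a finite family all of whose proper subfamilies have a smaller defect -/
def Fam.Tight (F : Fam Λ) : Prop := F.IsFinite ∧ ∀ F' : Fam Λ, F'.Le F → F' ≠ F → F'.defect < F.defect

open Classical in
/-- the number of new periods of the curve `E_c` over the family `B`: `4 / [k_c : ℚ] - 1` if `P_c = 0`, and none otherwise -/
noncomputable def Fam.newPeriods (B : Fam Λ) (c : ι) : ℕ := if B.P c = ⊥ then 4 / finrank ℚ (k (Λ c)) - 1 else 0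

/-- the numbers `t_i`, `exp(t_i)`, `p_{c,i}`, `℘(p_{c,i})`, `ζ(p_{c,i})` and (for the new curves, i.e. if `P_c = 0`)
`g₂, g₃, ω₁, ω₂, η₁, η₂` -/
def Fam.newNumbers (B : Fam Λ) (S : Finset ι) {s : ℕ} {n : ι → ℕ} (t : Fin s → ℂ) (p : ∀ c, Fin (n c) → ℂ) : Set ℂ :=
  {x | (∃ i, x ∈ mval (t i)) ∨
    ∃ c ∈ S, (∃ i, x ∈ eval (Λ c) (p c i)) ∨ (B.P c = ⊥ ∧ x ∈ per (Λ c))}

/-- `t₁, …, t_s` are `ℚ`-independent modulo `T` and, for `c ∈ S`, the `n_c` points `p_{c,i} ∉ Ω_c` are `k_c`-independent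
modulo `P_c + Ω_c ⊗ ℚ` -/
def Fam.Independent (B : Fam Λ) (S : Finset ι) {s : ℕ} {n : ι → ℕ} (t : Fin s → ℂ) (p : ∀ c, Fin (n c) → ℂ) : Prop :=
  IndepMod B.T t ∧ ∀ c ∈ S, (∀ i, p c i ∉ (Λ c).lattice) ∧ IndepMod (B.P c ⊔ P₀ (Λ c)) (p c)

/-- The conjecture holds exactly over the family `B`: for independent `t`, `p` in the above sense
`s + ∑ (2 n_c + (4 / [k_c : ℚ] - 1 if P_c = 0))` of the new numbers are algebraically independent over the field generated
by the numbers of `B`. -/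
def Fam.ExactOver (B : Fam Λ) : Prop :=
  ∀ (S : Finset ι) (s : ℕ) (n : ι → ℕ) (t : Fin s → ℂ) (p : ∀ c, Fin (n c) → ℂ), B.Independent S t p →
    ∃ w : Fin (s + ∑ c ∈ S, (2 * n c + B.newPeriods c)) → ℂ, (∀ l, w l ∈ B.newNumbers S t p) ∧
      AlgebraicIndependent (IntermediateField.adjoin ℚ B.numbers) w

section

open Pool.Agent.Q280.ML Pool.Agent.Q280.ML.OM

/-- the family of all numbers -/
noncomputable def tp (Λ : ι → PeriodPair) : XX Λ := ⟨⊤, fun _ => Or.inr le_top⟩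

theorem hu : Pool.Agent.TH813.Ell.P₁ ≤ (tp Λ).1.1 := le_top

theorem hu' (c : ι) : Pool.Agent.TH813.Ell.P₂ (Λ c) ≤ (tp Λ).1.2 c := le_top

theorem le_tp (F : XX Λ) : F ≤ tp Λ := (le_top : F.1 ≤ ⊤)

/-- a family as an element of the lattice -/
noncomputable def tx (F : Fam Λ) : XX Λ := ⟨(F.T, F.P), F.P_ge⟩

/-- an element of the lattice as a family -/
noncomputable def fx (F : XX Λ) (h : Pool.Agent.TH813.Ell.P₁ ≤ F.1.1) : Fam Λ := ⟨F.1.1, F.1.2, h, F.2⟩

theorem tx_ge (F : Fam Λ) : Pool.Agent.TH813.Ell.P₁ ≤ (tx F).1.1 := F.T_ge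

theorem tx_fx (F : XX Λ) (h : Pool.Agent.TH813.Ell.P₁ ≤ F.1.1) : tx (fx F h) = F := rfl

theorem le_iff {F G : Fam Λ} : F.Le G ↔ tx F ≤ tx G := Iff.rfl

theorem tx_inj {F G : Fam Λ} (h : tx F = tx G) : F = G := by
  have h1 : (tx F).1 = (tx G).1 := congrArg Subtype.val h
  exact Fam.ext (congrArg Prod.fst h1) (congrArg Prod.snd h1)

theorem fin_iff {F : Fam Λ} : finO (tp Λ) (tx F) ↔ F.IsFinite :=
  ⟨fun h => h.2.2, fun h => ⟨F.T_ge, le_tp _, h⟩⟩

theorem numbers_eq (F : Fam Λ) : F.numbers = PN (tx F) := by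
  ext x
  constructor
  · rintro (⟨t, ht, h | h⟩ | ⟨c, hc, h⟩)
    · exact Or.inl (Or.inl (h ▸ ht))
    · exact Or.inl (Or.inr ⟨t, ht, (Set.mem_singleton_iff.mp h).symm⟩)
    · refine Or.inr ⟨c, hc, ?_⟩
      rcases h with h | h | h | ⟨p, hp, hp', h | h | h⟩
      · exact Or.inl (Or.inl h)
      · exact Or.inl (Or.inr h)
      · exact Or.inr (Or.inl h)
      · exact Or.inr (Or.inl (h ▸ hp))
      · exact Or.inr (Or.inr (Or.inr ⟨p, ⟨hp, hp'⟩, h.symm⟩))
      · exact Or.inr (Or.inr (Or.inl ⟨p, ⟨hp, hp'⟩, (Set.mem_singleton_iff.mp h).symm⟩))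
  · rintro ((h | ⟨t, ht, h⟩) | ⟨c, hc, h⟩)
    · exact Or.inl ⟨x, h, Or.inl rfl⟩
    · exact Or.inl ⟨t, ht, Or.inr h.symm⟩
    · refine Or.inr ⟨c, hc, ?_⟩
      rcases h with (h | h) | h | ⟨p, ⟨hp, hp'⟩, h⟩ | ⟨p, ⟨hp, hp'⟩, h⟩
      · exact Or.inl h
      · exact Or.inr (Or.inl h)
      · exact Or.inr (Or.inr (Or.inl h))
      · exact Or.inr (Or.inr (Or.inr ⟨p, hp, hp', Or.inr (Or.inr h.symm)⟩))
      · exact Or.inr (Or.inr (Or.inr ⟨p, hp, hp', Or.inr (Or.inl h.symm)⟩))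

theorem wc_P₂ (L : PeriodPair) : wc L (Pool.Agent.TH813.Ell.P₂ L) = 4 / finrank ℚ (k L) - 1 := by
  unfold wc
  rw [Pool.Agent.TH813.Ell.four_div]

theorem exact_eq (B : Fam Λ) : B.ExactOver ↔ ExactO (tp Λ) (tx B) := by
  classical
  have hnw : ∀ c, B.newPeriods c = nw (tx B) c := fun c => by
    unfold Fam.newPeriods nw
    rw [wc_P₂]
    rfl
  have hZ : ∀ (S : Finset ι) {s : ℕ} {n : ι → ℕ} (t : Fin s → ℂ) (p : ∀ c, Fin (n c) → ℂ) (x : ℂ),
      x ∈ B.newNumbers S t p ↔ x ∈ ZO (tx B) S t p := by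
    intro S s n t p x
    unfold Fam.newNumbers mval eval per ZO perO
    simp only [ex, pts, Set.mem_union, Set.mem_iUnion, Set.mem_insert_iff, Set.mem_singleton_iff,
      Set.mem_ofPred_eq]
    rfl
  unfold Fam.ExactOver
  rw [numbers_eq]
  constructor
  · intro h S s n t p _ hp ht hp'
    obtain ⟨w, h1, h2⟩ := h S s n t p ⟨ht, fun c hc => ⟨fun i => (hp c hc i).2, hp' c hc⟩⟩
    have e : (s + ∑ c ∈ S, (2 * n c + B.newPeriods c)) = s + ∑ c ∈ S, (2 * n c + nw (tx B) c) := by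
      simp only [hnw]
    exact ⟨w ∘ Fin.cast e.symm, fun l => (hZ S t p _).mp (h1 _), h2.comp _ (Fin.cast_injective _)⟩
  · rintro h S s n t p ⟨ht, hp⟩
    obtain ⟨w, h1, h2⟩ := h S s n t p (fun _ => Submodule.mem_top) (fun c hc i => ⟨Submodule.mem_top, (hp c hc).1 i⟩) ht
      (fun c hc => (hp c hc).2)
    have e : (s + ∑ c ∈ S, (2 * n c + B.newPeriods c)) = s + ∑ c ∈ S, (2 * n c + nw (tx B) c) := by
      simp only [hnw]
    exact ⟨w ∘ Fin.cast e, fun l => (hZ S t p _).mpr (h1 _), h2.comp _ (Fin.cast_injective _)⟩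

theorem defect_eq {F : Fam Λ} (hF : finO (tp Λ) (tx F)) : F.defect = Us.LSys.dfc (A := OSys (tp Λ) hu) (tx F) := by
  have h1 : (trd ℚ F.numbers).toNat = (Q241.SX.M.eRk (PN (tx F))).toNat := by
    rw [numbers_eq]
    exact Pool.Agent.Q280.SD.trdeg_adjoin (PN (tx F)) (PN_rk hF)
  unfold Fam.defect Fam.weight Us.LSys.dfc Us.LSys.rk
  rw [h1]
  rfl

theorem tight_iff {F : Fam Λ} : F.Tight ↔ finO (tp Λ) (tx F) ∧
    ∀ W, oo Λ ≤ W → W < tx F → Us.LSys.dfc (A := OSys (tp Λ) hu) W < Us.LSys.dfc (A := OSys (tp Λ) hu) (tx F) := by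
  constructor
  · rintro ⟨h2, h3⟩
    have hF : finO (tp Λ) (tx F) := fin_iff.mpr h2
    refine ⟨hF, fun W hW1 hW2 => ?_⟩
    have hW : finO (tp Λ) W := finO_le hF (oo_le.mp hW1) hW2.le
    have h4 := h3 (fx W (oo_le.mp hW1)) hW2.le (fun h => hW2.ne (congrArg tx h))
    rwa [defect_eq hF, defect_eq (F := fx W (oo_le.mp hW1)) hW] at h4
  · rintro ⟨hF, h⟩
    refine ⟨fin_iff.mp hF, fun F' h2 h3 => ?_⟩
    have hW : finO (tp Λ) (tx F') := finO_le hF (tx_ge F') h2
    have h4 := h (tx F') (oo_le.mpr (tx_ge F')) (lt_of_le_of_ne h2 fun h => h3 (tx_inj h))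
    rw [defect_eq hF, defect_eq hW]
    exact h4

theorem trd_eq {S : Set ℂ} (hS : S.Finite) : ∃ r : ℕ, Q241.SX.M.eRk S = (r : ℕ∞) ∧ trd ℚ S = (r : Cardinal) := by
  have h1 : Q241.SX.M.eRk S < ⊤ := (Q241.SX.M.eRk_le_encard S).trans_lt hS.encard_lt_top
  obtain ⟨s, hs⟩ := ENat.ne_top_iff_exists.1 h1.ne
  refine ⟨s, hs.symm, ?_⟩
  have h2 := Pool.Agent.TH813.Rel.toENat_trdeg (k := ℚ) S
  change Cardinal.toENat (trd ℚ S) = Q241.SX.M.eRk S at h2
  rw [← hs] at h2
  exact Cardinal.toENat_eq_natCast.mp h2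

theorem periods_eq (S : Finset ι) {s : ℕ} {n : ι → ℕ} (t : Fin s → ℂ) (p : ∀ c, Fin (n c) → ℂ) :
    periods Λ S t p = GO S Λ t p := by
  ext x
  unfold periods mval eval per GO perO
  simp only [ex, pts, Set.mem_union, Set.mem_iUnion, Set.mem_insert_iff, Set.mem_singleton_iff,
    Set.mem_ofPred_eq]

theorem conj_iff (C : ℕ) : Conj Λ C ↔ finO (tp Λ) (CO (tp Λ) hu) ∧
    Us.LSys.dfc (A := OSys (tp Λ) hu) (CO (tp Λ) hu) ≤ C := by
  rw [← bound_CO, ← boundO_iff hu hu']
  unfold Conj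
  refine forall_congr' fun S => forall_congr' fun s => forall_congr' fun n => forall_congr' fun t =>
    forall_congr' fun p => ?_
  obtain ⟨r, h1, h2⟩ := trd_eq (GO_finite (S := S) (Λ := Λ) (t := t) (p := p))
  rw [periods_eq, h1, h2]
  have e : galDim Λ S t p = gd S Λ t p := rfl
  rw [e]
  constructor
  · intro h _ hp
    have h3 := h fun c hc i => (hp c hc i).2
    exact_mod_cast h3
  · intro h hp
    have h3 := h (fun _ => Submodule.mem_top) fun c hc i => ⟨Submodule.mem_top, hp c hc i⟩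
    exact_mod_cast h3

/-- every pair in the canonical family lies in a finite subfamily -/
theorem exists_sub (c : ι) (t p : ℂ) (ht : t ∈ (CO (tp Λ) hu).1.1) (hp : p ∈ (CO (tp Λ) hu).1.2 c) :
    ∃ V : XX Λ, V ≤ CO (tp Λ) hu ∧ finO (tp Λ) V ∧ t ∈ V.1.1 ∧ p ∈ V.1.2 c := by
  have hoo : oo Λ ≤ CO (tp Λ) hu := oo_le_CO hu
  classical
  by_cases hc : (CO (tp Λ) hu).1.2 c = ⊥
  · have h1 : mkF (Λ := Λ) (T₀ ⊔ Submodule.span ℚ {t}) ∅ (fun _ => ⊥) ≤ CO (tp Λ) hu :=
      mkF_le (sup_le (oo_le.mp hoo) ((Submodule.span_singleton_le_iff_mem _ _).mpr ht))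
        (fun c hc => absurd hc (Finset.notMem_empty c)) (fun c hc => absurd hc (Finset.notMem_empty c))
    refine ⟨_, h1, fin_mkF le_sup_left (fd_sup Pool.Agent.TH813.Ell.fd_P₁ (fd_span (Set.finite_singleton t)))
      (fun c hc => absurd hc (Finset.notMem_empty c)) (le_tp _), ?_, ?_⟩
    · exact (le_sup_right : Submodule.span ℚ {t} ≤ _) (Submodule.mem_span_singleton_self t)
    · rw [hc, Submodule.mem_bot] at hp
      rw [hp]
      exact Submodule.zero_mem _
  · have h1 : mkF (Λ := Λ) (T₀ ⊔ Submodule.span ℚ {t}) {c}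
        (fun d => if h : d = c then Submodule.span (Pool.Agent.TH813.Ell.kL (Λ d)) {p} else ⊥) ≤ CO (tp Λ) hu := by
      refine mkF_le (sup_le (oo_le.mp hoo) ((Submodule.span_singleton_le_iff_mem _ _).mpr ht))
        (fun d hd => ?_) (fun d hd => ?_)
      · rw [Finset.mem_singleton] at hd
        rw [hd]
        exact hc
      · rw [Finset.mem_singleton] at hd
        subst hd
        rw [dif_pos rfl]
        exact (Submodule.span_singleton_le_iff_mem _ _).mpr hp
    have h2 := mkF_mem (T := T₀ ⊔ Submodule.span ℚ {t}) (S := {c})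
      (W := fun d => if h : d = c then Submodule.span (Pool.Agent.TH813.Ell.kL (Λ d)) {p} else ⊥)
      (Finset.mem_singleton_self c)
    rw [dif_pos rfl] at h2
    refine ⟨_, h1, fin_mkF le_sup_left (fd_sup Pool.Agent.TH813.Ell.fd_P₁ (fd_span (Set.finite_singleton t)))
      (fun d hd => ?_) (le_tp _), ?_, ?_⟩
    · by_cases h : d = c
      · rw [dif_pos h]
        exact fd_span (Set.finite_singleton p)
      · rw [dif_neg h]
        exact fd_bot
    · exact (le_sup_right : Submodule.span ℚ {t} ≤ _) (Submodule.mem_span_singleton_self t)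
    · rw [h2]
      exact (le_sup_right : Submodule.span (Pool.Agent.TH813.Ell.kL (Λ c)) {p} ≤ _)
        (Submodule.mem_span_singleton_self p)

end

/-- **Main result.** For every family of elliptic curves there is a family `B` with the following properties.

(1) The conjecture holds exactly over `B`, and `B` is contained in every family with this property.
(2) `B` is the union of the finite families all of whose proper subfamilies have a smaller defect.
(3) The defect of a finite family `F` is at most the defect of `F ∩ B`.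
(4) For every `C` the conjecture holds with the error `C` if and only if `B` is finite and the defect of `B` is at most
`C`.
(5) The conjecture holds if and only if `B = (2πi ℚ, 0)`. -/
theorem result (Λ : ι → PeriodPair) : ∃ B : Fam Λ,
    (B.ExactOver ∧ ∀ B' : Fam Λ, B'.ExactOver → B.Le B') ∧
    (∀ c t p, (t ∈ B.T ∧ p ∈ B.P c) ↔ ∃ F : Fam Λ, F.Tight ∧ t ∈ F.T ∧ p ∈ F.P c) ∧
    (∀ F : Fam Λ, F.IsFinite → F.defect ≤ (F.inter B).defect) ∧
    (∀ C : ℕ, Conj Λ C ↔ B.IsFinite ∧ B.defect ≤ C) ∧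
    (Conj Λ 0 ↔ B = Fam.base Λ) := by
  open Pool.Agent.Q280.ML Pool.Agent.Q280.ML.OM in
  have hoo : oo Λ ≤ CO (tp Λ) hu := oo_le_CO hu
  refine ⟨fx (CO (tp Λ) hu) (oo_le.mp hoo), ⟨(exact_eq _).mpr (exact_CO hu hu'), fun B' h2 => ?_⟩, fun c t p => ?_,
    fun F h2 => ?_, fun C => ?_, ?_⟩
  · exact CO_le hu hu' (B := tx B') (tx_ge B') (le_tp _) ((exact_eq B').mp h2)
  · constructor
    · rintro ⟨ht, hp⟩
      obtain ⟨V, hV1, hV2, hV3, hV4⟩ := exists_sub c t p ht hp
      obtain ⟨F, h2, h3⟩ := Bs.exists_tight_ge (Us.LSys.sm (A := OSys (tp Λ) hu)) hV2 hV1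
      have h3' : V.1 ≤ F.1 := h3
      exact ⟨fx F h2.1.1, tight_iff.mpr h2, h3'.1 hV3, h3'.2 c hV4⟩
    · rintro ⟨F, h1, h2, h3⟩
      have h4 : tx F ≤ CO (tp Λ) hu :=
        Bs.Tight.le_core (X := (OSys (tp Λ) hu).X) (T := tx F) (tight_iff.mp h1)
      have h4' : (tx F).1 ≤ (CO (tp Λ) hu).1 := h4
      exact ⟨h4'.1 h2, h4'.2 c h3⟩
  · have hF : finO (tp Λ) (tx F) := fin_iff.mpr h2
    have h3 := conc_CO hu (tx F) hF
    have hF' : finO (tp Λ) (tx F ⊓ CO (tp Λ) hu) := finO_le hF (le_inf (tx_ge F) (oo_le.mp hoo)) inf_le_left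
    have e : tx (F.inter (fx (CO (tp Λ) hu) (oo_le.mp hoo))) = tx F ⊓ CO (tp Λ) hu := rfl
    rw [← e] at h3 hF'
    rw [← defect_eq hF, ← defect_eq hF'] at h3
    exact h3
  · rw [conj_iff]
    constructor
    · rintro ⟨h1, h2⟩
      rw [← tx_fx (CO (tp Λ) hu) (oo_le.mp hoo)] at h1 h2
      rw [← defect_eq h1] at h2
      exact ⟨fin_iff.mp h1, h2⟩
    · rintro ⟨h1, h2⟩
      have h3 := fin_iff.mpr h1
      rw [defect_eq h3] at h2
      exact ⟨h3, h2⟩
  · rw [conj_iff, ← bound_CO]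
    have h1 : fx (CO (tp Λ) hu) (oo_le.mp hoo) = Fam.base Λ ↔ CO (tp Λ) hu = oo Λ :=
      ⟨fun h => congrArg tx h, fun h => tx_inj h⟩
    rw [h1, CO_base_iff, dfc_oo]
    rfl

end Pool.Agent.Results.MP_12eca1_ag.CanonicalFamily
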