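import Pool.Agent.Q138.PS.VF
import Pool.Agent.Results.MP_12eca1_ag.AlgebraicFibres

/-!
# Families of G-functions at the points `± 1 / t`, `t` close to `α P(n)`

Let `q ≥ 2`. We consider countably many families `h = (h_1, ..., h_r)` of G-functions with rational coefficients as in the
starting file `AlgebraicFibres`, and a countable set `𝒞` of complex numbers (the periods of the limit motives). Outside a set
of real numbers of Hausdorff dimension at most `q / (q + 1 / (q 2 ^ (q - 1)))` (that is `8 / 9` for `q = 2`) every `α > 0` has the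
following property. There is `η > 0` such that for ALL the families, ALL `δ`, `d` and ALL `ℚ`-spaces `V` spanned by finitely many
elements of `𝒞` there is `κ > 0` such that for all large `N` and ALL integral polynomials `P` of degree `q` with positive leading
coefficient and coefficients of size at most `N ^ η`: for all but `N ^ (1 - κ)` of the `n ≤ N`, for EVERY integer `t ≥ 1` with
`|t - ⌊α P(n)⌋| ≤ N ^ κ` and for `β = t` and `β = -t`: every relation of degree `≤ δ` between a logarithm of `β` and the numbers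
`h_i(1 / β)`, with coefficients in the `L`-span of `V`, `L` any number field of degree `≤ d`, holds on all irreducible sets through
the point in the fibre at `1 / β` of the functional relations, and on the whole fibre if the family is connected.
-/

set_option autoImplicit false

namespace Pool.Agent.Results.MP_12eca1_ag.FibresAlongRealMultiples

open Finset Filter Topology
open Pool.Agent.Q138.PS
open AlgebraicFibres (GFamily Connected Good VeryGood)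

/-- a family of G-functions, the data of the starting file -/
structure Family where
  /-- the number of functions -/
  r : ℕ
  /-- the denominator of the system -/
  T : Polynomial ℤ
  /-- the system -/
  A : Fin r → Fin r → Polynomial ℤ
  /-- the functions -/
  h : Fin r → PowerSeries ℚ
  hG : GFamily T A h

/-- the relations at the point `1 / β` hold on the irreducible sets in the fibre, and on the fibre if the family is connected -/
def AllGood (F : Family) (δ d : ℕ) (V : Submodule ℚ ℂ) (β : ℂ) : Prop :=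
  Good F.h δ d V (fun _ : Fin 1 => β) ∧ (Connected F.h → VeryGood F.h δ d V fun _ : Fin 1 => β)

/-- `t ≥ 1` and the conclusion fails for `β = t` or `β = -t` -/
def Fails (F : Family) (δ d : ℕ) (V : Submodule ℚ ℂ) (t : ℕ) : Prop :=
  1 ≤ t ∧ ¬ (AllGood F δ d V ((1 * (t : ℤ) : ℤ) : ℂ) ∧ AllGood F δ d V ((-1 * (t : ℤ) : ℤ) : ℂ))

theorem few (F : Family) (δ d : ℕ) (V : Submodule ℚ ℂ) (hV : Module.Finite ℚ V) :
    ∃ c C : ℝ, 0 < c ∧ ∀ Y : ℕ, 1 ≤ Y → cn (Fails F δ d V) Y ≤ C * (Y : ℝ) ^ (1 - c) := by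
  classical
  obtain ⟨c, hc, C, h⟩ := AlgebraicFibres.result F.T F.A F.h F.hG 1 le_rfl 1 δ d (Module.finrank ℚ V)
  have hCC : C ≤ |C| := le_abs_self C
  refine ⟨c, 12 * |C|, hc, fun Y hY => ?_⟩
  obtain ⟨hf, h1, h2⟩ := h V hV le_rfl Y hY
  have hmem : ∀ e : ℤ, |e| = 1 → ∀ t : ℕ, t ≤ Y → ((e * (t : ℤ) : ℤ) : ℂ) ∈ AlgebraicFibres.integers 1 Y := by
    intro e he t ht
    refine int_mem_Z1 _ Y ?_
    rw [abs_mul, he, one_mul, abs_of_nonneg (Int.natCast_nonneg t)]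
    exact_mod_cast ht
  have hbd : C * (Y : ℝ) ^ (-c) * ((AlgebraicFibres.integers 1 Y).ncard : ℝ) ^ 1 ≤ 3 * |C| * (Y : ℝ) ^ (1 - c) := by
    refine le_trans ?_ (rpow_bound (abs_nonneg C) Y hY _ (Z1_card Y))
    have : (0 : ℝ) ≤ (Y : ℝ) ^ (-c) * ((AlgebraicFibres.integers 1 Y).ncard : ℝ) ^ 1 := by positivity
    have h3 : (Z1 Y).ncard = (AlgebraicFibres.integers 1 Y).ncard := rfl
    rw [h3]
    nlinarith
  have key1 : ∀ e : ℤ, |e| = 1 → cn (fun t => 1 ≤ t ∧ ¬ Good F.h δ d V (fun _ : Fin 1 => ((e * (t : ℤ) : ℤ) : ℂ))) Y ≤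
      3 * |C| * (Y : ℝ) ^ (1 - c) := by
    intro e he
    have h3 : ({α : Fin 1 → ℂ | (∀ i, α i ∈ AlgebraicFibres.integers 1 Y) ∧ ¬ Good F.h δ d V α}).Finite :=
      (Set.Finite.pi' fun _ : Fin 1 => hf).subset fun α hα => hα.1
    refine (cn_of_cplx _ Y e (by rintro rfl; simp at he) _ h3 ?_).trans (h1.trans hbd)
    rintro t - ht2 ⟨-, ht3⟩
    exact ⟨fun _ => hmem e he t ht2, ht3⟩
  have key2 : ∀ e : ℤ, |e| = 1 → cn (fun t => 1 ≤ t ∧ ¬ (Connected F.h →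
      VeryGood F.h δ d V (fun _ : Fin 1 => ((e * (t : ℤ) : ℤ) : ℂ)))) Y ≤ 3 * |C| * (Y : ℝ) ^ (1 - c) := by
    intro e he
    by_cases hcon : Connected F.h
    · have h3 : ({α : Fin 1 → ℂ | (∀ i, α i ∈ AlgebraicFibres.integers 1 Y) ∧ ¬ VeryGood F.h δ d V α}).Finite :=
        (Set.Finite.pi' fun _ : Fin 1 => hf).subset fun α hα => hα.1
      refine (cn_of_cplx _ Y e (by rintro rfl; simp at he) _ h3 ?_).trans ((h2 hcon).trans hbd)
      rintro t - ht2 ⟨-, ht3⟩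
      exact ⟨fun _ => hmem e he t ht2, fun h4 => ht3 fun _ => h4⟩
    · have h3 : cn (fun t => 1 ≤ t ∧ ¬ (Connected F.h →
          VeryGood F.h δ d V (fun _ : Fin 1 => ((e * (t : ℤ) : ℤ) : ℂ)))) Y ≤ cn (fun _ => False) Y :=
        cn_mono' _ _ Y fun t _ _ ht => ht.2 fun h => absurd h hcon
      refine h3.trans ?_
      have h4 : cn (fun _ => False) Y = 0 := by
        rw [cn_eq']
        simp
      rw [h4]
      positivity
  have e1 := key1 1 (by norm_num)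
  have e2 := key1 (-1) (by norm_num)
  have e3 := key2 1 (by norm_num)
  have e4 := key2 (-1) (by norm_num)
  have h5 : cn (Fails F δ d V) Y ≤
      cn (fun t => (1 ≤ t ∧ ¬ Good F.h δ d V (fun _ : Fin 1 => ((1 * (t : ℤ) : ℤ) : ℂ))) ∨
        (1 ≤ t ∧ ¬ (Connected F.h → VeryGood F.h δ d V (fun _ : Fin 1 => ((1 * (t : ℤ) : ℤ) : ℂ)))) ∨
        (1 ≤ t ∧ ¬ Good F.h δ d V (fun _ : Fin 1 => ((-1 * (t : ℤ) : ℤ) : ℂ))) ∨
        (1 ≤ t ∧ ¬ (Connected F.h → VeryGood F.h δ d V (fun _ : Fin 1 => ((-1 * (t : ℤ) : ℤ) : ℂ))))) Y := by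
    refine cn_mono' _ _ Y fun t _ _ ht => ?_
    obtain ⟨ht1, ht2⟩ := ht
    unfold AllGood at ht2
    tauto
  have h6 := cn_or (fun t => 1 ≤ t ∧ ¬ Good F.h δ d V (fun _ : Fin 1 => ((1 * (t : ℤ) : ℤ) : ℂ))) (fun t =>
        (1 ≤ t ∧ ¬ (Connected F.h → VeryGood F.h δ d V (fun _ : Fin 1 => ((1 * (t : ℤ) : ℤ) : ℂ)))) ∨
        (1 ≤ t ∧ ¬ Good F.h δ d V (fun _ : Fin 1 => ((-1 * (t : ℤ) : ℤ) : ℂ))) ∨
        (1 ≤ t ∧ ¬ (Connected F.h → VeryGood F.h δ d V (fun _ : Fin 1 => ((-1 * (t : ℤ) : ℤ) : ℂ))))) Y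
  have h7 := cn_or (fun t => 1 ≤ t ∧ ¬ (Connected F.h → VeryGood F.h δ d V (fun _ : Fin 1 => ((1 * (t : ℤ) : ℤ) : ℂ))))
        (fun t => (1 ≤ t ∧ ¬ Good F.h δ d V (fun _ : Fin 1 => ((-1 * (t : ℤ) : ℤ) : ℂ))) ∨
        (1 ≤ t ∧ ¬ (Connected F.h → VeryGood F.h δ d V (fun _ : Fin 1 => ((-1 * (t : ℤ) : ℤ) : ℂ))))) Y
  have h8 := cn_or (fun t => 1 ≤ t ∧ ¬ Good F.h δ d V (fun _ : Fin 1 => ((-1 * (t : ℤ) : ℤ) : ℂ)))
        (fun t => 1 ≤ t ∧ ¬ (Connected F.h → VeryGood F.h δ d V (fun _ : Fin 1 => ((-1 * (t : ℤ) : ℤ) : ℂ)))) Y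
  linarith

/-- **Theorem.** -/
theorem result (q : ℕ) (hq : 2 ≤ q) {ι : Type} [Countable ι] (F : ι → Family) (𝒞 : Set ℂ) (h𝒞 : 𝒞.Countable) :
    ∃ E : Set ℝ, dimH E ≤ ENNReal.ofReal (q / (q + 1 / ((q : ℝ) * 2 ^ (q - 1)))) ∧ ∀ α : ℝ, 0 < α → α ∉ E →
      ∃ η : ℝ, 0 < η ∧ ∀ (i : ι) (δ d s : ℕ) (v : Fin s → ℂ), (∀ j, v j ∈ 𝒞) →
      ∃ κ : ℝ, 0 < κ ∧ ∀ᶠ N : ℕ in atTop, ∀ P : Polynomial ℤ, P.natDegree = q → 0 < P.leadingCoeff →
        (∀ j, |((P.coeff j : ℤ) : ℝ)| ≤ (N : ℝ) ^ η) →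
        (badW (Fails (F i) δ d (Submodule.span ℚ (Set.range v))) ⌊(N : ℝ) ^ κ⌋₊ α P N : ℝ) ≤ (N : ℝ) ^ (1 - κ) := by
  classical
  have hC : Countable {x : ℂ // x ∈ 𝒞} := h𝒞.to_subtype
  obtain ⟨E, hE, hg⟩ := exc_bad (ι := ι × (ℕ × ℕ) × (Σ s : ℕ, Fin s → {x : ℂ // x ∈ 𝒞})) q hq
    (fun i => Fails (F i.1) i.2.1.1 i.2.1.2 (Submodule.span ℚ (Set.range fun j => (i.2.2.2 j : ℂ))))
  refine ⟨E, hE, fun α hα hαE => ?_⟩
  obtain ⟨η, hη, h1⟩ := hg α hα hαE
  refine ⟨η, hη, fun i δ d s v hv => ?_⟩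
  have hV : Module.Finite ℚ (Submodule.span ℚ (Set.range v)) := Module.Finite.span_of_finite _ (Set.finite_range v)
  obtain ⟨c, C, hc, h2⟩ := few (F i) δ d _ hV
  exact h1 (i, (δ, d), ⟨s, fun j => ⟨v j, hv j⟩⟩) C c hc h2

end Pool.Agent.Results.MP_12eca1_ag.FibresAlongRealMultiples
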