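import Pool.Agent.Q189.HC.Fin

/-!
# Near relations between periods of hyperelliptic curves over arbitrary base fields

Let `f_1, …, f_k ∈ ℚ[x]` be monic of even degrees `n_j = 2 g_j` with distinct real roots different from `0`, and let
`C_j(t)` be the curve `y² = f_j(x) (x - 1/t)` of genus `g_j`, `t` a complex number, `Ω_j(t)` its period matrix. Let
`ζ = (ζ_1, …, ζ_g)` be ARBITRARY complex numbers, for example generators of a subfield `k₀` of `ℂ` (the base field of the
André-Grothendieck period conjecture) and the periods of some motive `M₀` over `k₀`. The motive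
`M(t) = M₀ ⊕ ⨁ H^1(C_j(t_j)) ⊕ ⨁ (Kummer motive of t_j)` has the additional periods `Ω_j(t_j)`, `2πi` and `log t_j`; the
motivic Galois group of `M(t)` is contained in an extension by the product of the groups `Sp(2 g_j)` and `𝔾_a ^ k`, so that
the conjecture predicts (if it is as large as possible) that all polynomial relations with coefficients in
`ℚ(ζ, 2πi, t)` between the `Ω_j(t_j)` and the `log t_j` hold identically on the torsor
`𝔸^k × {X : X_j Q_j(t_j) X_jᵀ = 2πi B}` of the dimension `∑ (1 + g_j (2 g_j + 1))`.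

We prove a quantitative form of it, for approximate relations, for almost all points `t` whose coordinates are algebraic
integers of degree at most `m` (the number fields `ℚ(t_1, …, t_k)` are different from point to point): for all polynomials
`P` with integer coefficients of degree at most `d` and height at most `H` and all points `(l, X)` of
`𝔸^k × torsor`,
`|P(l, X, 2πi, ζ, t)| ≤ (H max(1, |l|, |X|)) ^ B |P(log t, Ω(t), 2πi, ζ, t)|`,
so every near relation at the periods is a near relation on the whole torsor. The exponent `B`, the density `C T ^ (-c)` of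
the exceptional set and the intervals of `H` do not depend on `ζ`, and no hypothesis is made on `ζ`: the numbers `ζ` may be
Liouville numbers, algebraically dependent on each other and on `2πi`, they may depend on `T`, and so on. The bound holds for
all `H` in a long interval from `H₁` to `H₁ ^ exp (T ^ c)`, for every sufficiently large `H₁`; and, with one exceptional
set of points for all `H`, for a set of `H` of upper density at least `1 - T ^ (-c)` on the doubly logarithmic scale.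

Proof. `Pool.Agent.Q189.MF` (the machine of helper246, `Pool.Agent.Q246.LN`, for connected families of G-functions, for a
different family at each point), with the constants `ζ`, `2πi` and the periods at `t = ∞`; the connectedness of the family
(identity theorem and invariance of the functional relations under the symplectic group, helper118, `Pool.Agent.Y118.HP`)
is in `Pool.Agent.Q189.HC`.
-/

set_option autoImplicit false

open Polynomial

namespace Pool.Agent.Results.MP_12eca1_ag.NearRelationsRelative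

/-- the branch points: `z` inserted at the place `m` in the sequence of the `a i` -/
noncomputable def branch {n : ℕ} (a : Fin n → ℝ) (m : Fin (n + 1)) (z : ℂ) : Fin (n + 1) → ℂ :=
  Fin.insertNth (α := fun _ => ℂ) m z fun i => (a i : ℂ)

/-- the point `cos² θ e_l + sin² θ e_(l+1)` of the segment from `e_l` to `e_(l+1)` -/
noncomputable def onSegment {n : ℕ} (e : Fin (n + 1) → ℂ) (l : Fin n) (θ : ℝ) : ℂ :=
  ((Real.cos θ : ℝ) : ℂ) ^ 2 * e l.castSucc + ((Real.sin θ : ℝ) : ℂ) ^ 2 * e l.succ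

/-- The period `∮ x^j dx / y`, `y² = ∏ (x - e_i)`, over the loop around the segment from `e_l` to `e_(l+1)`, twice the
integral over the segment: `dx / √((x - e_l) (e_(l+1) - x)) = 2 dθ` for `x = cos² θ e_l + sin² θ e_(l+1)`, and the other
factors of `y` are the principal square roots of `x - e_i`, `i < l`, and of `e_i - x`, `i > l + 1`. -/
noncomputable def period {n : ℕ} (e : Fin (n + 1) → ℂ) (l j : Fin n) : ℂ :=
  2 * (if Even (l : ℕ) then 1 else -Complex.I) * ∫ θ in (0 : ℝ)..(Real.pi / 2), 2 * (onSegment e l θ ^ (j : ℕ) *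
    ∏ i, if i < l.castSucc then (onSegment e l θ - e i) ^ (-(1 / 2) : ℂ)
      else if l.succ < i then (e i - onSegment e l θ) ^ (-(1 / 2) : ℂ) else 1)

/-- the period matrix of the curve `y² = ∏ (x - a_i) (x - 1/t)` -/
noncomputable def Ω {n : ℕ} (a : Fin n → ℝ) (m : Fin (n + 1)) (t : ℂ) : Matrix (Fin n) (Fin n) ℂ :=
  Matrix.of (period (branch a m (1 / t)))

/-- the polarisation in terms of the forms `x^i dx / y`, `y² = F(x) = ∑ c_s x^s`: entries `(i - j)/2 * c_(i+j+2)` -/
noncomputable def polDR (n : ℕ) (F : ℂ[X]) : Matrix (Fin n) (Fin n) ℂ :=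
  Matrix.of fun i j => (((i : ℕ) : ℂ) - ((j : ℕ) : ℂ)) / 2 * F.coeff ((i : ℕ) + (j : ℕ) + 2)

/-- the polarisation in terms of the loops: `2 (-1)^r` at `(r, s)`, `|r - s| = 1` -/
def polB (n : ℕ) : Matrix (Fin n) (Fin n) ℂ :=
  Matrix.of fun r s => if (r : ℕ) = s + 1 ∨ (s : ℕ) = r + 1 then 2 * (-1) ^ (r : ℕ) else 0

/-- The torsor of the Riemann-Legendre relations of the curves `y² = f_j(x) (x - 1/t_j)`: all `X` with
`X_j polDR X_jᵀ = 2πi polB` for all `j`. -/
def Torsor {k : ℕ} (n : Fin k → ℕ) (f : Fin k → ℚ[X]) (t : Fin k → ℂ) : Set (∀ j, Matrix (Fin (n j)) (Fin (n j)) ℂ) :=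
  {X' | ∀ j, X' j * polDR (n j) ((f j).map (algebraMap ℚ ℂ) * (X - C (1 / t j))) * (X' j).transpose =
    (2 * Real.pi * Complex.I : ℂ) • polB (n j)}

/-- the point with the coordinates: the numbers `l_j`, the entries of the matrices `X_j`, the number `2πi`, the numbers
`ζ_i` and the numbers `t_j` -/
noncomputable def point {k g : ℕ} {n : Fin k → ℕ} (l : Fin k → ℂ) (X : ∀ j, Matrix (Fin (n j)) (Fin (n j)) ℂ)
    (ζ : Fin g → ℂ) (t : Fin k → ℂ) : (Σ j : Fin k, Option (Fin (n j) × Fin (n j))) ⊕ (Option (Fin g) ⊕ Fin k) → ℂ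
  | Sum.inl ⟨j, none⟩ => l j
  | Sum.inl ⟨j, some p⟩ => X j p.1 p.2
  | Sum.inr (Sum.inl none) => 2 * Real.pi * Complex.I
  | Sum.inr (Sum.inl (some i)) => ζ i
  | Sum.inr (Sum.inr j) => t j

/-- the algebraic integers of degree at most `m` all of whose conjugates have absolute value at most `T` -/
def Ints (m T : ℕ) : Set ℂ :=
  {α | IsIntegral ℤ α ∧ (minpoly ℚ α).natDegree ≤ m ∧ ∀ z : ℂ, Polynomial.aeval z (minpoly ℚ α) = 0 → ‖z‖ ≤ T}

/-- The transfer of near relations at the height `H`, with the constants `ζ`: for all logarithms `ℓ_j` of the `t_j` with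
`|ℓ_j| ≤ H`, all polynomials `P` with integer coefficients of degree at most `d` and height at most `H`, all complex numbers
`l_j` and all `X` on the torsor, all of absolute value at most `M`,
`|P(l, X, 2πi, ζ, t)| ≤ (H M) ^ B |P(ℓ, Ω(t), 2πi, ζ, t)|`. -/
def Good {k g : ℕ} {n : Fin k → ℕ} (a : ∀ j, Fin (n j) → ℝ) (m : ∀ j, Fin (n j + 1)) (f : Fin k → ℚ[X]) (d B : ℕ)
    (ζ : Fin g → ℂ) (t : Fin k → ℂ) (H : ℝ) : Prop :=
  ∀ ℓ : Fin k → ℂ, (∀ j, Complex.exp (ℓ j) = t j) → (∀ j, ‖ℓ j‖ ≤ H) →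
    ∀ P : MvPolynomial ((Σ j : Fin k, Option (Fin (n j) × Fin (n j))) ⊕ (Option (Fin g) ⊕ Fin k)) ℤ, P.totalDegree ≤ d →
      (∀ e, |((P.coeff e : ℤ) : ℝ)| ≤ H) → ∀ (l : Fin k → ℂ), ∀ X ∈ Torsor n f t, ∀ M : ℝ, 1 ≤ M →
        (∀ j, ‖l j‖ ≤ M) → (∀ j p q, ‖X j p q‖ ≤ M) →
        ‖MvPolynomial.aeval (point l X ζ t) P‖ ≤ (H * M) ^ B *
          ‖MvPolynomial.aeval (point ℓ (fun j => Ω (a j) (m j) (t j)) ζ t) P‖

open Pool.Agent.Y118.HP Pool.Agent.Y118.HG Pool.Agent.Q189.HC
open Pool.Agent.Q189.HG (pnt)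

lemma period_eq {n : ℕ} (a : Fin n → ℝ) (m : Fin (n + 1)) (z : ℂ) :
    Matrix.of (period (branch a m z)) = CMz a m z := by
  ext l j
  unfold CMz
  rw [Matrix.of_apply, Matrix.of_apply]
  unfold period perC dl
  congr 1
  · split_ifs with h
    · rw [pow_zero]
    · have hI : Complex.I ^ 3 = -Complex.I := by rw [pow_succ, Complex.I_sq]; ring
      rw [hI]
  · refine intervalIntegral.integral_congr fun θ _ => ?_
    have h1 : onSegment (branch a m z) l θ = seg (ee a m z l.castSucc) (ee a m z l.succ) (Real.sin θ ^ 2) := by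
      unfold onSegment seg
      have h2 : ((Real.cos θ : ℝ) : ℂ) ^ 2 = 1 - (((Real.sin θ ^ 2 : ℝ)) : ℂ) := by
        rw [← Complex.ofReal_pow, Real.cos_sq']
        push_cast
        ring
      rw [h2]
      push_cast
      rfl
    simp only [h1]
    rfl

lemma torsor_iff {k : ℕ} (n : Fin k → ℕ) (f : Fin k → ℚ[X]) (t : Fin k → ℂ) (Y : ∀ j, Matrix (Fin (n j)) (Fin (n j)) ℂ) :
    Y ∈ Torsor n f t ↔ Y ∈ TorC n f t tpi := by
  have h1 : ∀ j, polDR (n j) ((f j).map (algebraMap ℚ ℂ) * (X - C (1 / t j))) =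
      (Qp (n j) (f j)).map (Polynomial.aeval (1 / t j)) := fun j => (Qp_eval (f j) (1 / t j)).symm
  have h2 : ∀ j, (2 * Real.pi * Complex.I : ℂ) • polB (n j) = (-2 * tpi) • jm ℂ (n j) := by
    intro j
    ext r s
    rw [Matrix.smul_apply, Matrix.smul_apply, jm_apply, smul_eq_mul, smul_eq_mul]
    unfold polB tpi
    rw [Matrix.of_apply]
    split_ifs
    · ring
    · ring
  unfold Torsor TorC
  simp only [Set.mem_ofPred_eq, h1, h2]

lemma point_eq {k g : ℕ} {n : Fin k → ℕ} (l : Fin k → ℂ) (X : ∀ j, Matrix (Fin (n j)) (Fin (n j)) ℂ) (ζ : Fin g → ℂ)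
    (t : Fin k → ℂ) : point l X ζ t = Sum.elim (pnt l X) (Sum.elim (op tpi ζ) t) := by
  funext v
  rcases v with ⟨j, _ | p⟩ | (_ | i) | j
  · rfl
  · rfl
  · rfl
  · rfl
  · rfl

lemma good_iff {k g : ℕ} {n : Fin k → ℕ} (a : ∀ j, Fin (n j) → ℝ) (m : ∀ j, Fin (n j + 1)) (f : Fin k → ℚ[X]) (d B : ℕ)
    (ζ : Fin g → ℂ) (t : Fin k → ℂ) {H : ℝ} (hH : 0 ≤ H) : Good a m f d B ζ t H ↔ Tr n a m f d B ζ t H := by
  unfold Good Tr
  have h1 : (fun j => Ω (a j) (m j) (t j)) = fun j => CMz (a j) (m j) (1 / t j) := by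
    funext j
    exact period_eq (a j) (m j) (1 / t j)
  simp only [point_eq, h1]
  refine forall_congr' fun ℓ => forall_congr' fun _ => forall_congr' fun _ => forall_congr' fun P => forall_congr' fun _ =>
    forall_congr' fun _ => forall_congr' fun l => ?_
  constructor
  · intro h X hX
    refine h X ((torsor_iff n f t X).2 hX) _ (le_max_left _ _) (fun j => ?_) fun j p q => ?_
    · exact (norm_le_pi_norm (pnt l X) ⟨j, none⟩).trans (le_max_right _ _)
    · exact (norm_le_pi_norm (pnt l X) ⟨j, some (p, q)⟩).trans (le_max_right _ _)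
  · intro h X hX M hM h2 h3
    refine (h X ((torsor_iff n f t X).1 hX)).trans ?_
    refine mul_le_mul_of_nonneg_right (pow_le_pow_left₀ (by positivity) (mul_le_mul_of_nonneg_left ?_ hH) _) (norm_nonneg _)
    refine max_le hM ((pi_norm_le_iff_of_nonneg (by linarith)).2 fun v => ?_)
    rcases v with ⟨j, _ | p⟩
    · exact h2 j
    · exact h3 j p.1 p.2

/-- Let `n_j` be even, `a_j` a strictly increasing sequence of `n_j` real numbers different from `0`, where `m_j` is the
number of negative ones, such that `f_j = ∏ (x - a_(j,i))` has rational coefficients.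
(1) For real `z` in the same gap as `0` the periods are the usual integrals (principal branch of the square root), and they
are analytic functions of `z` outside the real line and in the strip over the gap.
(2) For all `g`, `d` and `m ≥ 1` there is `R` such that `(Ω_1(t_1), …, Ω_k(t_k))` is on the torsor for all `t` with
`|t_j| > R`, and there are `B`, `C` and `c > 0` such that for all `T ≥ 1`: (a) for every sufficiently large `H₁` and all
complex numbers `ζ_1, …, ζ_g`, all but at most `C T ^ (-c) |Ints m T| ^ k` of the tuples `t ∈ (Ints m T)^k` satisfy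
`|t_j| > R` and near relations transfer for all `H` with `H₁ ≤ H ≤ H₁ ^ exp (T ^ c)`; (b) for all `ζ_1, …, ζ_g`, all but at
most `C T ^ (-c) |Ints m T| ^ k` of the tuples have the property that there are arbitrarily large `N` such that, for all but
at most `T ^ (-c) N` of the `s < N`, `|t_j| > R` and near relations transfer for all `H` with
`2 ^ (2 ^ s) ≤ H ≤ 2 ^ (2 ^ (s + 1))`. -/
theorem result (k g : ℕ) (n : Fin k → ℕ) (hn : ∀ j, Even (n j)) (a : ∀ j, Fin (n j) → ℝ) (ha : ∀ j, StrictMono (a j))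
    (m : ∀ j, Fin (n j + 1)) (hm : ∀ j i, (i.castSucc < m j → a j i < 0) ∧ (m j ≤ i.castSucc → 0 < a j i))
    (f : Fin k → ℚ[X]) (hf : ∀ j, (f j).map (algebraMap ℚ ℝ) = ∏ i, (X - C (a j i))) (d D : ℕ) (hD : 1 ≤ D) :
    (∀ (j : Fin k) (z : ℝ), (∀ i, (i.castSucc < m j → a j i < z) ∧ (m j ≤ i.castSucc → z < a j i)) →
      ∀ l i : Fin (n j), period (branch (a j) (m j) z) l i =
        2 * ∫ x in (Fin.insertNth (α := fun _ => ℝ) (m j) z (a j) l.castSucc)..(Fin.insertNth (α := fun _ => ℝ) (m j) z (a j) l.succ),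
          (x : ℂ) ^ (i : ℕ) / (((∏ s, (x - Fin.insertNth (α := fun _ => ℝ) (m j) z (a j) s) : ℝ) : ℂ) ^ (1 / 2 : ℂ))) ∧
    (∀ (j : Fin k) (z : ℂ), (z.im ≠ 0 ∨ ∀ i, (i.castSucc < m j → a j i < z.re) ∧ (m j ≤ i.castSucc → z.re < a j i)) →
      ∀ l i : Fin (n j), DifferentiableAt ℂ (fun z => period (branch (a j) (m j) z) l i) z) ∧
    ∃ R : ℕ, (∀ t : Fin k → ℂ, (∀ j, (R : ℝ) < ‖t j‖) → (fun j => Ω (a j) (m j) (t j)) ∈ Torsor n f t) ∧
    ∃ (B : ℕ) (C c : ℝ), 0 < c ∧ ∀ T : ℕ, 1 ≤ T →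
    (∃ H₀ : ℝ, ∀ H₁ : ℝ, H₀ ≤ H₁ → ∀ ζ : Fin g → ℂ,
      (({t : Fin k → ℂ | (∀ j, t j ∈ Ints D T) ∧ ¬ ∀ H : ℝ, H₁ ≤ H → H ≤ H₁ ^ Real.exp ((T : ℝ) ^ c) →
        (∀ j, (R : ℝ) < ‖t j‖) ∧ Good a m f d B ζ t H}.ncard : ℕ) : ℝ) ≤ C * (T : ℝ) ^ (-c) * (((Ints D T).ncard : ℕ) : ℝ) ^ k) ∧
    ∀ ζ : Fin g → ℂ, (({t : Fin k → ℂ | (∀ j, t j ∈ Ints D T) ∧ ¬ ∀ N₀ : ℕ, ∃ N, N₀ ≤ N ∧
      (({s : ℕ | s < N ∧ ¬ ∀ H : ℝ, 2 ^ (2 ^ s) ≤ H → H ≤ 2 ^ (2 ^ (s + 1)) →
        (∀ j, (R : ℝ) < ‖t j‖) ∧ Good a m f d B ζ t H}.ncard : ℕ) : ℝ) ≤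
        (T : ℝ) ^ (-c) * N}.ncard : ℕ) : ℝ) ≤ C * (T : ℝ) ^ (-c) * (((Ints D T).ncard : ℕ) : ℝ) ^ k := by
  have h0 : ∀ j, InGap (a j) (m j) 0 := fun j i => hm j i
  have hf0 : ∀ j, (f j).coeff 0 ≠ 0 := by
    intro j h
    have h1 := congrArg (fun p : ℝ[X] => p.coeff 0) (hf j)
    simp only [coeff_map] at h1
    rw [h, map_zero, coeff_zero_eq_eval_zero, eval_prod] at h1
    refine (Finset.prod_ne_zero_iff.2 fun i _ => ?_) h1.symm
    rw [eval_sub, eval_X, eval_C, zero_sub, neg_ne_zero]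
    rcases lt_or_ge i.castSucc (m j) with h2 | h2
    · exact ((hm j i).1 h2).ne
    · exact ((hm j i).2 h2).ne'
  refine ⟨fun j z hz l i => ?_, fun j z hz l i => ?_, ?_⟩
  · have h1 := congrFun (congrFun (CMz_real (hn j) (ha j) (t := z) hz) l) i
    rw [← period_eq] at h1
    exact h1
  · have hzD : z ∈ Dm (a j) (m j) := by
      rcases hz with hz | hz
      · exact mem_Dm_of_im _ _ hz
      · intro i
        refine ⟨fun h => ?_, fun h => ?_⟩
        · rw [Complex.mem_slitPlane_iff]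
          left
          have := (hz i).1 h
          simpa using this
        · rw [Complex.mem_slitPlane_iff]
          left
          have := (hz i).2 h
          simpa using this
    have h1 : (fun z => period (branch (a j) (m j) z) l i) = fun z => dl l * perC (ee (a j) (m j) z) l (i : ℕ) := by
      funext z
      exact congrFun (congrFun (period_eq (a j) (m j) z) l) i
    rw [h1]
    exact (((differentiableOn_perC (ha j) (m j) l (i : ℕ)).differentiableAt ((isOpen_Dm (a j) (m j)).mem_nhds hzD)).const_mul _)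
  obtain ⟨R, hR1, hR, hmain⟩ := main hn h0 ha hf hf0 g D d hD
  obtain ⟨B, C, c, hc, hB⟩ := hmain (Fin g → ℂ) (fun ζ => ζ)
    (fun B ζ x H => (∀ j, (R : ℝ) < ‖x j‖) ∧ (1 ≤ H → Tr n a m f d B ζ x H))
    (fun B₀ => ⟨B₀, fun T _ => ⟨1, fun z x H _ _ hxR htr _ => ⟨hxR, fun _ => htr⟩⟩⟩)
    (fun B z x H H' h1 h2 h3 hg => ⟨hg.1, fun _ => (hg.2 (h1.trans h2)).mono h1 h2 h3 le_rfl⟩)
  refine ⟨R, fun t ht => ?_, B, C, c, hc, fun T hT => ?_⟩
  · rw [torsor_iff]
    have h1 := hR t ht
    have h2 : (fun j => Ω (a j) (m j) (t j)) = fun j => CMz (a j) (m j) (1 / t j) := by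
      funext j
      exact period_eq (a j) (m j) (1 / t j)
    rw [h2]
    exact h1
  · obtain ⟨⟨H₀, h1⟩, h2⟩ := hB T hT
    refine ⟨⟨max H₀ 1, fun H₁ hH₁ ζ => ?_⟩, fun ζ => ?_⟩
    · have h3 := h1 H₁ ((le_max_left _ _).trans hH₁) ζ
      have h4 : {t : Fin k → ℂ | (∀ j, t j ∈ Ints D T) ∧ ¬ ∀ H : ℝ, H₁ ≤ H → H ≤ H₁ ^ Real.exp ((T : ℝ) ^ c) →
          (∀ j, (R : ℝ) < ‖t j‖) ∧ Good a m f d B ζ t H} =
          {t : Fin k → ℂ | (∀ j, t j ∈ Ints D T) ∧ ¬ ∀ H : ℝ, H₁ ≤ H → H ≤ H₁ ^ Real.exp ((T : ℝ) ^ c) →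
          (∀ j, (R : ℝ) < ‖t j‖) ∧ (1 ≤ H → Tr n a m f d B ζ t H)} := by
        ext t
        simp only [Set.mem_ofPred_eq]
        refine and_congr_right fun _ => not_congr (forall_congr' fun H => forall_congr' fun hH => forall_congr' fun _ =>
          and_congr_right fun _ => ?_)
        have h5 : 1 ≤ H := ((le_max_right _ _).trans hH₁).trans hH
        rw [good_iff a m f d B ζ t (by linarith)]
        exact ⟨fun h _ => h, fun h => h h5⟩
      rw [h4]
      exact h3
    · have h3 := h2 ζ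
      have h4 : ∀ t : Fin k → ℂ, ∀ s : ℕ, (¬ ∀ H : ℝ, 2 ^ (2 ^ s) ≤ H → H ≤ 2 ^ (2 ^ (s + 1)) →
          (∀ j, (R : ℝ) < ‖t j‖) ∧ Good a m f d B ζ t H) ↔ ¬ ∀ H : ℝ, 2 ^ (2 ^ s) ≤ H → H ≤ 2 ^ (2 ^ (s + 1)) →
          (∀ j, (R : ℝ) < ‖t j‖) ∧ (1 ≤ H → Tr n a m f d B ζ t H) := by
        intro t s
        refine not_congr (forall_congr' fun H => forall_congr' fun hH => forall_congr' fun _ =>
          and_congr_right fun _ => ?_)
        have h5 : (1 : ℝ) ≤ H := (one_le_pow₀ one_le_two).trans hH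
        rw [good_iff a m f d B ζ t (by linarith)]
        exact ⟨fun h _ => h, fun h => h h5⟩
      simp only [h4]
      exact h3

end Pool.Agent.Results.MP_12eca1_ag.NearRelationsRelative
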